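import Mathlib
import Pool.Agent.Helper320.GFV

/-!
# Tetrahedra with integer edges and a given volume

A tetrahedron with a fixed base and three further edges which are quadratic polynomials of the volume.
-/

set_option autoImplicit false

namespace Pool.Agent.T4h65.Tet

open MeasureTheory
open scoped Pointwise

/-- `V` is the volume (the Lebesgue measure) of a tetrahedron in the Euclidean space of dimension three, the convex hull of four
affinely independent points, such that the lengths of its six edges are positive integers. -/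
def IsVolume (V : ℝ) : Prop :=
  ∃ P : Fin 4 → EuclideanSpace ℝ (Fin 3), AffineIndependent ℝ P ∧
    (∀ i j, i ≠ j → ∃ k : ℕ, 0 < k ∧ dist (P i) (P j) = k) ∧
    volume (convexHull ℝ (Set.range P)) = ENNReal.ofReal V

lemma dist_of {a b c a' b' c' k : ℝ} (hk : 0 ≤ k) (h : (a - a') ^ 2 + (b - b') ^ 2 + (c - c') ^ 2 = k ^ 2) :
    dist (!₂[a, b, c] : EuclideanSpace ℝ (Fin 3)) !₂[a', b', c'] = k := by
  rw [EuclideanSpace.dist_eq, Fin.sum_univ_three]
  simp only [Real.dist_eq, sq_abs]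
  have e : ((!₂[a, b, c] : EuclideanSpace ℝ (Fin 3)) 0 - (!₂[a', b', c'] : EuclideanSpace ℝ (Fin 3)) 0) ^ 2 +
      ((!₂[a, b, c] : EuclideanSpace ℝ (Fin 3)) 1 - (!₂[a', b', c'] : EuclideanSpace ℝ (Fin 3)) 1) ^ 2 +
      ((!₂[a, b, c] : EuclideanSpace ℝ (Fin 3)) 2 - (!₂[a', b', c'] : EuclideanSpace ℝ (Fin 3)) 2) ^ 2 =
      (a - a') ^ 2 + (b - b') ^ 2 + (c - c') ^ 2 := by simp
  rw [e, h, Real.sqrt_sq hk]

/-- A tetrahedron with the vertices `0`, `(u, n₁ √N, 0)`, `(v, n₂ √N, 0)` and a fourth vertex at the distances `x`, `y = x + u`,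
`z = x + v`. -/
theorem build {N u v n₁ n₂ δ : ℝ} {m : ℕ} (hm : 0 < m) (hN : 0 < N) (hδ : δ = u * n₂ - v * n₁) (hδ0 : δ ≠ 0)
    {r q p x y z : ℕ} (hr : 0 < r) (hq : 0 < q) (hp : 0 < p) (hx : 0 < x) (hy : 0 < y) (hz : 0 < z)
    (er : u ^ 2 + N * n₁ ^ 2 = (r : ℝ) ^ 2) (eq : v ^ 2 + N * n₂ ^ 2 = (q : ℝ) ^ 2)
    (ep : (u - v) ^ 2 + N * (n₁ - n₂) ^ 2 = (p : ℝ) ^ 2)
    (ex : 4 * N ^ 2 * δ * (n₁ * n₂ * (n₁ - n₂)) * x =
      (36 * m) ^ 2 + N ^ 2 * (u * n₂ ^ 2 - v * n₁ ^ 2) ^ 2 + N ^ 3 * (n₁ * n₂ * (n₁ - n₂)) ^ 2)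
    (ey : (y : ℝ) = x + u) (ez : (z : ℝ) = x + v) : IsVolume (3 * m) := by
  have hm' : (0 : ℝ) < m := by exact_mod_cast hm
  obtain ⟨s, hs, hs2⟩ : ∃ s : ℝ, 0 < s ∧ s ^ 2 = N := ⟨√N, Real.sqrt_pos.2 hN, Real.sq_sqrt hN.le⟩
  obtain ⟨w₁, hw₁⟩ : ∃ w₁ : ℝ, w₁ * (2 * δ) = N * (n₁ * n₂ * (n₁ - n₂)) :=
    ⟨N * (n₁ * n₂ * (n₁ - n₂)) / (2 * δ), by field_simp⟩
  obtain ⟨w₂, hw₂⟩ : ∃ w₂ : ℝ, w₂ * (2 * δ) = u * n₂ ^ 2 - v * n₁ ^ 2 :=
    ⟨(u * n₂ ^ 2 - v * n₁ ^ 2) / (2 * δ), by field_simp⟩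
  obtain ⟨h, hh⟩ : ∃ h : ℝ, h * (N * δ) = 18 * m := ⟨18 * m / (N * δ), by field_simp⟩
  have hh0 : h ≠ 0 := by
    rintro rfl
    rw [zero_mul] at hh
    linarith
  have e4 : (w₁ - x) ^ 2 + N * w₂ ^ 2 + N * h ^ 2 = (x : ℝ) ^ 2 := by
    have h1 : (4 * N * δ ^ 2) * ((w₁ - x) ^ 2 + N * w₂ ^ 2 + N * h ^ 2 - (x : ℝ) ^ 2) = 0 := by
      have a1 : 4 * N * δ ^ 2 * w₁ ^ 2 = N * (N * (n₁ * n₂ * (n₁ - n₂))) ^ 2 := by rw [← hw₁]; ring
      have a2 : 4 * N * δ ^ 2 * (N * w₂ ^ 2) = N ^ 2 * (u * n₂ ^ 2 - v * n₁ ^ 2) ^ 2 := by rw [← hw₂]; ring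
      have a3 : 4 * N * δ ^ 2 * (N * h ^ 2) = (36 * m) ^ 2 := by
        rw [show (36 * m : ℝ) = 2 * (18 * m) by ring, ← hh]; ring
      have a4 : 4 * N * δ ^ 2 * (-2 * w₁ * x) = -(4 * N ^ 2 * δ * (n₁ * n₂ * (n₁ - n₂)) * x) := by
        rw [show 4 * N * δ ^ 2 * (-2 * w₁ * x) = -(4 * N * δ * x) * (w₁ * (2 * δ)) by ring, hw₁]; ring
      linear_combination a1 + a2 + a3 + a4 - ex
    have h2 : (4 * N * δ ^ 2) ≠ 0 := by positivity
    have := (mul_eq_zero.1 h1).resolve_left h2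
    linarith
  have e5 : (w₁ - x - u) ^ 2 + N * (w₂ - n₁) ^ 2 + N * h ^ 2 = (y : ℝ) ^ 2 := by
    have h1 : (2 * δ) * (2 * u * w₁ + 2 * N * n₁ * w₂ - N * n₁ ^ 2) = 0 := by
      rw [show (2 * δ) * (2 * u * w₁ + 2 * N * n₁ * w₂ - N * n₁ ^ 2) =
        2 * u * (w₁ * (2 * δ)) + 2 * N * n₁ * (w₂ * (2 * δ)) - 2 * δ * N * n₁ ^ 2 by ring, hw₁, hw₂, hδ]
      ring
    have h2 : (2 * δ) ≠ 0 := by positivity
    have h3 := (mul_eq_zero.1 h1).resolve_left h2
    rw [ey]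
    linear_combination e4 - h3
  have e6 : (w₁ - x - v) ^ 2 + N * (w₂ - n₂) ^ 2 + N * h ^ 2 = (z : ℝ) ^ 2 := by
    have h1 : (2 * δ) * (2 * v * w₁ + 2 * N * n₂ * w₂ - N * n₂ ^ 2) = 0 := by
      rw [show (2 * δ) * (2 * v * w₁ + 2 * N * n₂ * w₂ - N * n₂ ^ 2) =
        2 * v * (w₁ * (2 * δ)) + 2 * N * n₂ * (w₂ * (2 * δ)) - 2 * δ * N * n₂ ^ 2 by ring, hw₁, hw₂, hδ]
      ring
    have h2 : (2 * δ) ≠ 0 := by positivity
    have h3 := (mul_eq_zero.1 h1).resolve_left h2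
    rw [ez]
    linear_combination e4 - h3
  obtain ⟨P, hP⟩ : ∃ P : Fin 4 → EuclideanSpace ℝ (Fin 3),
      P = ![!₂[0, 0, 0], !₂[u, n₁ * s, 0], !₂[v, n₂ * s, 0], !₂[w₁ - x, w₂ * s, h * s]] := ⟨_, rfl⟩
  have p0 : P 0 = !₂[0, 0, 0] := by rw [hP]; rfl
  have p1 : P 1 = !₂[u, n₁ * s, 0] := by rw [hP]; rfl
  have p2 : P 2 = !₂[v, n₂ * s, 0] := by rw [hP]; rfl
  have p3 : P 3 = !₂[w₁ - x, w₂ * s, h * s] := by rw [hP]; rfl
  have d01 : dist (P 0) (P 1) = r := by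
    rw [p0, p1]
    exact dist_of (by positivity) (by rw [← er, ← hs2]; ring)
  have d02 : dist (P 0) (P 2) = q := by
    rw [p0, p2]
    exact dist_of (by positivity) (by rw [← eq, ← hs2]; ring)
  have d12 : dist (P 1) (P 2) = p := by
    rw [p1, p2]
    exact dist_of (by positivity) (by rw [← ep, ← hs2]; ring)
  have d03 : dist (P 0) (P 3) = x := by
    rw [p0, p3]
    exact dist_of (by positivity) (by rw [← e4, ← hs2]; ring)
  have d13 : dist (P 1) (P 3) = y := by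
    rw [p1, p3]
    exact dist_of (by positivity) (by rw [← e5, ← hs2]; ring)
  have d23 : dist (P 2) (P 3) = z := by
    rw [p2, p3]
    exact dist_of (by positivity) (by rw [← e6, ← hs2]; ring)
  refine ⟨P, ?_, ?_, ?_⟩
  · rw [affineIndependent_iff_of_fintype]
    intro w hw0 hw1
    rw [Finset.weightedVSub_eq_linear_combination _ hw0] at hw1
    rw [Fin.sum_univ_four] at hw0 hw1
    rw [p0, p1, p2, p3] at hw1
    have c0 := congrArg (fun t : EuclideanSpace ℝ (Fin 3) => t 0) hw1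
    have c1 := congrArg (fun t : EuclideanSpace ℝ (Fin 3) => t 1) hw1
    have c2 := congrArg (fun t : EuclideanSpace ℝ (Fin 3) => t 2) hw1
    simp at c0 c1 c2
    have hs0 := hs.ne'
    have k3 : w 3 = 0 := by
      rcases c2 with c2 | c2 | c2
      · exact c2
      · exact absurd c2 hh0
      · exact absurd c2 hs0
    rw [k3] at c0 c1 hw0
    have c1' : w 1 * n₁ + w 2 * n₂ = 0 := by
      have : (w 1 * n₁ + w 2 * n₂) * s = 0 := by linear_combination c1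
      exact (mul_eq_zero.1 this).resolve_right hs0
    have k1 : w 1 = 0 := by
      have : w 1 * δ = 0 := by rw [hδ]; linear_combination n₂ * c0 - v * c1'
      exact (mul_eq_zero.1 this).resolve_right hδ0
    have k2 : w 2 = 0 := by
      have : w 2 * δ = 0 := by rw [hδ]; linear_combination u * c1' - n₁ * c0
      exact (mul_eq_zero.1 this).resolve_right hδ0
    have k0 : w 0 = 0 := by rw [k1, k2] at hw0; linarith
    intro i
    fin_cases i
    · exact k0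
    · exact k1
    · exact k2
    · exact k3
  · intro i j hij
    fin_cases i <;> fin_cases j
    · exact absurd rfl hij
    · exact ⟨r, hr, d01⟩
    · exact ⟨q, hq, d02⟩
    · exact ⟨x, hx, d03⟩
    · exact ⟨r, hr, by rw [dist_comm]; exact d01⟩
    · exact absurd rfl hij
    · exact ⟨p, hp, d12⟩
    · exact ⟨y, hy, d13⟩
    · exact ⟨q, hq, by rw [dist_comm]; exact d02⟩
    · exact ⟨p, hp, by rw [dist_comm]; exact d12⟩
    · exact absurd rfl hij
    · exact ⟨z, hz, d23⟩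
    · exact ⟨x, hx, by rw [dist_comm]; exact d03⟩
    · exact ⟨y, hy, by rw [dist_comm]; exact d13⟩
    · exact ⟨z, hz, by rw [dist_comm]; exact d23⟩
    · exact absurd rfl hij
  · have hr' : Set.range P = {0, P 1, P 2, P 3} := by
      ext t
      simp only [Set.mem_range, Set.mem_insert_iff, Set.mem_singleton_iff]
      have z0 : P 0 = 0 := by
        rw [p0]
        ext i
        fin_cases i <;> simp
      constructor
      · rintro ⟨i, rfl⟩
        fin_cases i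
        · exact Or.inl z0
        · exact Or.inr (Or.inl rfl)
        · exact Or.inr (Or.inr (Or.inl rfl))
        · exact Or.inr (Or.inr (Or.inr rfl))
      · rintro (rfl | rfl | rfl | rfl)
        · exact ⟨0, z0⟩
        · exact ⟨1, rfl⟩
        · exact ⟨2, rfl⟩
        · exact ⟨3, rfl⟩
    rw [hr', Pool.Agent.Helper320.Gold.NFV.vol_tetra]
    congr 1
    have t : Pool.Agent.Helper320.Gold.tp (P 1) (P 2) (P 3) = 18 * m := by
      rw [p1, p2, p3]
      unfold Pool.Agent.Helper320.Gold.tp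
      simp only [Matrix.cons_val_zero, Matrix.cons_val_one, Matrix.cons_val]
      rw [← hh, ← hs2, hδ]
      ring
    rw [t, abs_of_pos (by positivity)]
    ring

/-- Scaling by a natural number. -/
theorem IsVolume.scale {V : ℝ} (h : IsVolume V) (hV : 0 ≤ V) {k : ℕ} (hk : 0 < k) : IsVolume ((k : ℝ) ^ 3 * V) := by
  obtain ⟨P, h1, h2, h3⟩ := h
  have hk' : (0 : ℝ) < k := by exact_mod_cast hk
  refine ⟨fun i => (k : ℝ) • P i, ?_, ?_, ?_⟩
  · rw [affineIndependent_iff_of_fintype] at h1 ⊢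
    intro w hw0 hw1
    refine h1 w hw0 ?_
    rw [Finset.weightedVSub_eq_linear_combination _ hw0] at hw1 ⊢
    have e : ∑ i, w i • ((k : ℝ) • P i) = (k : ℝ) • ∑ i, w i • P i := by
      rw [Finset.smul_sum]
      exact Finset.sum_congr rfl fun i _ => smul_comm _ _ _
    rw [e] at hw1
    exact (smul_eq_zero.1 hw1).resolve_left hk'.ne'
  · intro i j hij
    obtain ⟨l, hl, e⟩ := h2 i j hij
    refine ⟨k * l, by positivity, ?_⟩
    rw [dist_smul₀, e, Real.norm_of_nonneg hk'.le]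
    push_cast
    ring
  · have e : Set.range (fun i => (k : ℝ) • P i) = (k : ℝ) • Set.range P := by
      ext t
      simp [Set.mem_smul_set]
    rw [e, convexHull_smul, Measure.addHaar_smul, h3, finrank_euclideanSpace_fin, ← ENNReal.ofReal_mul (abs_nonneg _),
      abs_of_pos (by positivity)]

end Pool.Agent.T4h65.Tet
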