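import Mathlib
import Pool.Agent.T4h65.Tet

set_option autoImplicit false

namespace Pool.Agent.T4h65.Tet

lemma f20_0_15 (k : ℕ) (hk : 0 < k) : IsVolume (3 * ((20 * k : ℕ) : ℝ)) := by
  refine build (N := 15) (u := -4) (v := -7) (n₁ := 4) (n₂ := 1) (δ := 24) (r := 16) (q := 8) (p := 12) (x := 2 * k ^ 2 + 0 * k + 12)
    (y := 2 * k ^ 2 + 0 * k + 8) (z := 2 * k ^ 2 + 0 * k + 5) (by omega) (by norm_num) (by norm_num) (by norm_num) (by norm_num) (by norm_num)
    (by norm_num) (by positivity) (by positivity) (by positivity) (by norm_num) (by norm_num) (by norm_num) ?_ ?_ ?_ <;>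
  · push_cast
    ring

lemma f40_4_3 (k : ℕ) : IsVolume (3 * ((40 * k + 4 : ℕ) : ℝ)) := by
  refine build (N := 3) (u := 8) (v := -3) (n₁ := 8) (n₂ := 3) (δ := 48) (r := 16) (q := 6) (p := 14) (x := 10 * k ^ 2 + 2 * k + 5)
    (y := 10 * k ^ 2 + 2 * k + 13) (z := 10 * k ^ 2 + 2 * k + 2) (by omega) (by norm_num) (by norm_num) (by norm_num) (by norm_num) (by norm_num)
    (by norm_num) (by positivity) (by positivity) (by positivity) (by norm_num) (by norm_num) (by norm_num) ?_ ?_ ?_ <;>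
  · push_cast
    ring

lemma f40_36_3 (k : ℕ) : IsVolume (3 * ((40 * k + 36 : ℕ) : ℝ)) := by
  refine build (N := 3) (u := 8) (v := -3) (n₁ := 8) (n₂ := 3) (δ := 48) (r := 16) (q := 6) (p := 14) (x := 10 * k ^ 2 + 18 * k + 13)
    (y := 10 * k ^ 2 + 18 * k + 21) (z := 10 * k ^ 2 + 18 * k + 10) (by omega) (by norm_num) (by norm_num) (by norm_num) (by norm_num) (by norm_num)
    (by norm_num) (by positivity) (by positivity) (by positivity) (by norm_num) (by norm_num) (by norm_num) ?_ ?_ ?_ <;>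
  · push_cast
    ring

lemma f80_32_3 (k : ℕ) : IsVolume (3 * ((80 * k + 32 : ℕ) : ℝ)) := by
  refine build (N := 3) (u := -3) (v := -11) (n₁ := 12) (n₂ := 4) (δ := 120) (r := 21) (q := 13) (p := 16) (x := 5 * k ^ 2 + 4 * k + 16)
    (y := 5 * k ^ 2 + 4 * k + 13) (z := 5 * k ^ 2 + 4 * k + 5) (by omega) (by norm_num) (by norm_num) (by norm_num) (by norm_num) (by norm_num)
    (by norm_num) (by positivity) (by positivity) (by positivity) (by norm_num) (by norm_num) (by norm_num) ?_ ?_ ?_ <;>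
  · push_cast
    ring

lemma f80_48_3 (k : ℕ) : IsVolume (3 * ((80 * k + 48 : ℕ) : ℝ)) := by
  refine build (N := 3) (u := -3) (v := -11) (n₁ := 12) (n₂ := 4) (δ := 120) (r := 21) (q := 13) (p := 16) (x := 5 * k ^ 2 + 6 * k + 17)
    (y := 5 * k ^ 2 + 6 * k + 14) (z := 5 * k ^ 2 + 6 * k + 6) (by omega) (by norm_num) (by norm_num) (by norm_num) (by norm_num) (by norm_num)
    (by norm_num) (by positivity) (by positivity) (by positivity) (by norm_num) (by norm_num) (by norm_num) ?_ ?_ ?_ <;>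
  · push_cast
    ring

lemma f48_0_1 (k : ℕ) (hk : 0 < k) : IsVolume (3 * ((48 * k : ℕ) : ℝ)) := by
  refine build (N := 1) (u := 0) (v := -9) (n₁ := 24) (n₂ := 12) (δ := 216) (r := 24) (q := 15) (p := 15) (x := 1 * k ^ 2 + 0 * k + 13)
    (y := 1 * k ^ 2 + 0 * k + 13) (z := 1 * k ^ 2 + 0 * k + 4) (by omega) (by norm_num) (by norm_num) (by norm_num) (by norm_num) (by norm_num)
    (by norm_num) (by positivity) (by positivity) (by positivity) (by norm_num) (by norm_num) (by norm_num) ?_ ?_ ?_ <;>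
  · push_cast
    ring

lemma f420_168_7 (k : ℕ) : IsVolume (3 * ((420 * k + 168 : ℕ) : ℝ)) := by
  refine build (N := 7) (u := 27) (v := -9) (n₁ := 15) (n₂ := 3) (δ := 216) (r := 48) (q := 12) (p := 48) (x := 10 * k ^ 2 + 8 * k + 17)
    (y := 10 * k ^ 2 + 8 * k + 44) (z := 10 * k ^ 2 + 8 * k + 8) (by omega) (by norm_num) (by norm_num) (by norm_num) (by norm_num) (by norm_num)
    (by norm_num) (by positivity) (by positivity) (by positivity) (by norm_num) (by norm_num) (by norm_num) ?_ ?_ ?_ <;>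
  · push_cast
    ring

lemma f420_252_7 (k : ℕ) : IsVolume (3 * ((420 * k + 252 : ℕ) : ℝ)) := by
  refine build (N := 7) (u := 27) (v := -9) (n₁ := 15) (n₂ := 3) (δ := 216) (r := 48) (q := 12) (p := 48) (x := 10 * k ^ 2 + 12 * k + 19)
    (y := 10 * k ^ 2 + 12 * k + 46) (z := 10 * k ^ 2 + 12 * k + 10) (by omega) (by norm_num) (by norm_num) (by norm_num) (by norm_num) (by norm_num)
    (by norm_num) (by positivity) (by positivity) (by positivity) (by norm_num) (by norm_num) (by norm_num) ?_ ?_ ?_ <;>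
  · push_cast
    ring

lemma f560_168_7 (k : ℕ) : IsVolume (3 * ((560 * k + 168 : ℕ) : ℝ)) := by
  refine build (N := 7) (u := -27) (v := -31) (n₁ := 15) (n₂ := 3) (δ := 384) (r := 48) (q := 32) (p := 32) (x := 10 * k ^ 2 + 6 * k + 58)
    (y := 10 * k ^ 2 + 6 * k + 31) (z := 10 * k ^ 2 + 6 * k + 27) (by omega) (by norm_num) (by norm_num) (by norm_num) (by norm_num) (by norm_num)
    (by norm_num) (by positivity) (by positivity) (by positivity) (by norm_num) (by norm_num) (by norm_num) ?_ ?_ ?_ <;>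
  · push_cast
    ring

lemma f560_392_7 (k : ℕ) : IsVolume (3 * ((560 * k + 392 : ℕ) : ℝ)) := by
  refine build (N := 7) (u := -27) (v := -31) (n₁ := 15) (n₂ := 3) (δ := 384) (r := 48) (q := 32) (p := 32) (x := 10 * k ^ 2 + 14 * k + 62)
    (y := 10 * k ^ 2 + 14 * k + 35) (z := 10 * k ^ 2 + 14 * k + 31) (by omega) (by norm_num) (by norm_num) (by norm_num) (by norm_num) (by norm_num)
    (by norm_num) (by positivity) (by positivity) (by positivity) (by norm_num) (by norm_num) (by norm_num) ?_ ?_ ?_ <;>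
  · push_cast
    ring

lemma f420_84_7 (k : ℕ) : IsVolume (3 * ((420 * k + 84 : ℕ) : ℝ)) := by
  refine build (N := 7) (u := -4) (v := -31) (n₁ := 12) (n₂ := 3) (δ := 360) (r := 32) (q := 32) (p := 36) (x := 10 * k ^ 2 + 4 * k + 44)
    (y := 10 * k ^ 2 + 4 * k + 40) (z := 10 * k ^ 2 + 4 * k + 13) (by omega) (by norm_num) (by norm_num) (by norm_num) (by norm_num) (by norm_num)
    (by norm_num) (by positivity) (by positivity) (by positivity) (by norm_num) (by norm_num) (by norm_num) ?_ ?_ ?_ <;>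
  · push_cast
    ring

lemma f420_336_7 (k : ℕ) : IsVolume (3 * ((420 * k + 336 : ℕ) : ℝ)) := by
  refine build (N := 7) (u := -4) (v := -31) (n₁ := 12) (n₂ := 3) (δ := 360) (r := 32) (q := 32) (p := 36) (x := 10 * k ^ 2 + 16 * k + 50)
    (y := 10 * k ^ 2 + 16 * k + 46) (z := 10 * k ^ 2 + 16 * k + 19) (by omega) (by norm_num) (by norm_num) (by norm_num) (by norm_num) (by norm_num)
    (by norm_num) (by positivity) (by positivity) (by positivity) (by norm_num) (by norm_num) (by norm_num) ?_ ?_ ?_ <;>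
  · push_cast
    ring

lemma f616_308_231 (k : ℕ) : IsVolume (3 * ((616 * k + 308 : ℕ) : ℝ)) := by
  refine build (N := 231) (u := -52) (v := -37) (n₁ := 4) (n₂ := 1) (δ := 96) (r := 80) (q := 40) (p := 48) (x := 2 * k ^ 2 + 2 * k + 71)
    (y := 2 * k ^ 2 + 2 * k + 19) (z := 2 * k ^ 2 + 2 * k + 34) (by omega) (by norm_num) (by norm_num) (by norm_num) (by norm_num) (by norm_num)
    (by norm_num) (by positivity) (by positivity) (by positivity) (by norm_num) (by norm_num) (by norm_num) ?_ ?_ ?_ <;>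
  · push_cast
    ring

end Pool.Agent.T4h65.Tet
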